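import Pool.Agent.R972.OP.Stm

/-!
Piece OP-CON: eigenvalues of nonconstant eigenfunctions are at least one.
-/

set_option autoImplicit false

namespace Pool.Agent.R560.OP

open Pool.Agent.R972.OP Finset

variable {n : ℕ}

theorem mv_mv (i j : ℕ) (g : Fin n → ℕ) : mv i j (mv i j g) = g := by
  funext a
  simp [mv]

theorem W_lt {N : ℕ} {W c : ℕ → ℝ} {m : ℝ} (h : WC N W c m) {i j : ℕ} (hij : i < j) (hj : j < N) :
    W i < W j := by
  obtain ⟨d, rfl⟩ : ∃ d, j = i + d + 1 := ⟨j - i - 1, by omega⟩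
  clear hij
  induction d with
  | zero => exact h.mono i hj
  | succ d ih => exact (ih (by omega)).trans (h.mono (i + d + 1) hj)

theorem sum_eq (N : ℕ) (a : ℕ → ℝ) (M : ℝ) (i j : ℕ) (hij : i < j) (hj : j < N) :
    ∑ k ∈ range (N - 1), M * a k *
      ((if k + 1 = i then 1 else 0) + (if k = j then 1 else 0) - (if k = i then 1 else 0) -
      (if k + 1 = j then 1 else 0)) =
    M * (((if j + 1 < N then a j else 0) - a (j - 1)) -
      (a i - (if 0 < i then a (i - 1) else 0))) := by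
  have e1 : ∑ k ∈ range (N - 1), M * a k * (if k = j then (1 : ℝ) else 0) =
      M * (if j + 1 < N then a j else 0) := by
    simp only [mul_ite, mul_one, mul_zero]
    rw [sum_ite_eq']
    by_cases h : j + 1 < N
    · rw [if_pos (mem_range.2 (by omega)), if_pos h]
    · rw [if_neg (fun h' => h (by have := mem_range.1 h'; omega)), if_neg h]
  have e2 : ∑ k ∈ range (N - 1), M * a k * (if k = i then (1 : ℝ) else 0) = M * a i := by
    simp only [mul_ite, mul_one, mul_zero]
    rw [sum_ite_eq', if_pos (mem_range.2 (by omega))]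
  have e3 : ∑ k ∈ range (N - 1), M * a k * (if k + 1 = j then (1 : ℝ) else 0) =
      M * a (j - 1) := by
    obtain ⟨j', rfl⟩ : ∃ j', j = j' + 1 := ⟨j - 1, by omega⟩
    simp only [mul_ite, mul_one, mul_zero, Nat.add_right_cancel_iff]
    rw [sum_ite_eq', if_pos (mem_range.2 (by omega))]
    rfl
  have e4 : ∑ k ∈ range (N - 1), M * a k * (if k + 1 = i then (1 : ℝ) else 0) =
      M * (if 0 < i then a (i - 1) else 0) := by
    rcases Nat.eq_zero_or_pos i with rfl | hi
    · simp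
    · obtain ⟨i', rfl⟩ : ∃ i', i = i' + 1 := ⟨i - 1, by omega⟩
      simp only [mul_ite, mul_one, mul_zero, Nat.add_right_cancel_iff]
      rw [sum_ite_eq', if_pos (mem_range.2 (by omega)), if_pos hi]
      rfl
  have e5 : ∀ k, M * a k * ((if k + 1 = i then (1 : ℝ) else 0) + (if k = j then 1 else 0) -
      (if k = i then 1 else 0) - (if k + 1 = j then 1 else 0)) =
      M * a k * (if k + 1 = i then (1 : ℝ) else 0) + M * a k * (if k = j then 1 else 0) -
      M * a k * (if k = i then 1 else 0) - M * a k * (if k + 1 = j then 1 else 0) := by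
    intro k; ring
  simp only [e5, sum_sub_distrib, sum_add_distrib]
  rw [e1, e2, e3, e4]
  ring

theorem con (h : S_PT) : S_CON := by
  classical
  intro n N R W c m lam F hW heig hne
  set T : Finset ((Fin n → ℕ) × ℕ × ℕ) := (cfg N R ×ˢ (range N ×ˢ range N)).filter
    fun x => x.2.1 < x.2.2 ∧ mv x.2.1 x.2.2 x.1 ∈ cfg N R with hT
  have memT : ∀ g i j, (g, i, j) ∈ T ↔ g ∈ cfg N R ∧ i < j ∧ j < N ∧ mv i j g ∈ cfg N R := by
    intro g i j
    simp only [hT, mem_filter, mem_product, mem_range]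
    constructor
    · rintro ⟨⟨h1, h2, h3⟩, h4, h5⟩
      exact ⟨h1, h4, h3, h5⟩
    · rintro ⟨h1, h2, h3, h4⟩
      exact ⟨⟨h1, h2.trans h3, h3⟩, h2, h4⟩
  obtain ⟨g0, hg0, k0, hk0, hm0, hF0⟩ := hne
  have h0T : (g0, k0, k0 + 1) ∈ T := (memT _ _ _).2 ⟨hg0, by omega, hk0, hm0⟩
  obtain ⟨⟨s0, i, j⟩, hsT, hmax⟩ := exists_max_image T
    (fun x => |F (mv x.2.1 x.2.2 x.1) - F x.1| / (W x.2.2 - W x.2.1)) ⟨_, h0T⟩
  obtain ⟨hs0, hij, hj, ht0⟩ := (memT _ _ _).1 hsT
  set M : ℝ := |F (mv i j s0) - F s0| / (W j - W i) with hM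
  have hWij : 0 < W j - W i := sub_pos.2 (W_lt hW hij hj)
  have hMpos : 0 < M := by
    have h1 := hmax _ h0T
    have h2 : 0 < |F (mv k0 (k0 + 1) g0) - F g0| / (W (k0 + 1) - W k0) :=
      div_pos (abs_pos.2 (sub_ne_zero.2 hF0)) (sub_pos.2 (hW.mono _ hk0))
    exact lt_of_lt_of_le h2 h1
  have hLip : ∀ g ∈ cfg N R, ∀ i j, i < j → j < N → mv i j g ∈ cfg N R →
      |F (mv i j g) - F g| ≤ M * (W j - W i) := by
    intro g hg i' j' hij' hj' hm'
    have h1 := hmax _ ((memT g i' j').2 ⟨hg, hij', hj', hm'⟩)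
    have hpos : 0 < W j' - W i' := sub_pos.2 (W_lt hW hij' hj')
    exact (div_le_iff₀ hpos).1 h1
  have hD0 : |F (mv i j s0) - F s0| = M * (W j - W i) := by
    rw [hM, div_mul_cancel₀ _ hWij.ne']
  obtain ⟨s, hs, ht, hD⟩ : ∃ s ∈ cfg N R, mv i j s ∈ cfg N R ∧
      F (mv i j s) - F s = M * (W j - W i) := by
    rcases le_total 0 (F (mv i j s0) - F s0) with hc | hc
    · exact ⟨s0, hs0, ht0, by rw [← hD0, abs_of_nonneg hc]⟩
    · refine ⟨mv i j s0, ht0, by rwa [mv_mv], ?_⟩
      rw [mv_mv, ← hD0, abs_of_nonpos hc]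
      ring
  have hsum : LL N R c F (mv i j s) - LL N R c F s ≤ M * (((if j + 1 < N then
      c j * (W (j + 1) - W j) else 0) - c (j - 1) * (W (j - 1 + 1) - W (j - 1))) -
      (c i * (W (i + 1) - W i) - (if 0 < i then c (i - 1) * (W (i - 1 + 1) - W (i - 1))
        else 0))) := by
    rw [← sum_eq N (fun k => c k * (W (k + 1) - W k)) M i j hij hj]
    unfold LL
    rw [← sum_sub_distrib]
    refine sum_le_sum fun k hk => ?_
    exact h n N R W c F M hW.mono hW.nonneg hMpos.le hLip s hs i j hij hj ht hD k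
      (by have := mem_range.1 hk; omega)
  have ej := hW.eq j hj
  have ei := hW.eq i (hij.trans hj)
  rw [if_pos (by omega : 0 < j)] at ej
  rw [if_pos (by omega : i + 1 < N)] at ei
  have hj1 : j - 1 + 1 = j := by omega
  rw [hj1] at hsum
  have hi1 : (if 0 < i then c (i - 1) * (W (i - 1 + 1) - W (i - 1)) else 0) =
      (if 0 < i then c (i - 1) * (W i - W (i - 1)) else 0) := by
    by_cases hi : 0 < i
    · rw [if_pos hi, if_pos hi, Nat.sub_add_cancel hi]
    · rw [if_neg hi, if_neg hi]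
  rw [hi1, ej, ei, heig _ ht, heig _ hs] at hsum
  have hDpos : 0 < M * (W j - W i) := mul_pos hMpos hWij
  have h3 : -lam * (M * (W j - W i)) ≤ -1 * (M * (W j - W i)) := by
    rw [← hD]
    rw [← hD] at hDpos
    have h4 : M * (m - W j - (m - W i)) = -(F (mv i j s) - F s) := by rw [hD]; ring
    rw [h4] at hsum
    linarith
  nlinarith [le_of_mul_le_mul_right h3 hDpos]

end Pool.Agent.R560.OP
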